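import Mathlib

/-!
# The number of normal rational curves that contain a given arc

Let `q > k ≥ 2`, `q` a prime power. For every `n ≥ k`, an `n`-arc of `PG(k - 1, q)` that is contained in
a normal rational curve is contained in exactly

* `(q - 1) ^ (k - 1) (q - 2) (q - 3) ⋯ (q - k + 2)` of them if `n = k` and `k ≥ 3` (in one if `k = 2`),
* `(q - 2) (q - 3) ⋯ (q - k + 1)` of them if `n = k + 1`,
* one if `n ≥ k + 2`,

and every `n`-arc with `n ≤ k + 2` is contained in a normal rational curve. So this is the number asked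
for in Q2, for all `n` that answer Q1 (and `k`, `k + 1`, `k + 2` are among these `n`).

Proof. The normal rational curves through the points of the standard basis and the point
`(1, …, 1)` are the curves with the parametrisation `(1 / (t - a 1), …, 1 / (t - a k))`, where the `a i`
are distinct elements of the field, and such a curve through a further point `(x 1, …, x k)` determines
the `a i` up to an affine map, as `a i = l / x i + m`. For `n = k` count pairs of a curve and a
point on it.
-/

set_option autoImplicit false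

namespace Pool.Agent.Results.MP_8a9ebc_co.CurvesThroughArc

open Submodule Finset Polynomial

variable {F : Type} [Field F] {k : ℕ}

/-- The point spanned by a vector. -/
abbrev pt (v : Fin k → F) : Submodule F (Fin k → F) := Submodule.span F {v}

/-- The vectors `(t ^ (k - 1), …, t, 1)`, and `(1, 0, …, 0)` for `t = ∞`. -/
def stdVec (k : ℕ) : Option F → (Fin k → F)
  | some t => fun i => t ^ (k - 1 - (i : ℕ))
  | none => fun i => if (i : ℕ) = 0 then 1 else 0

/-- Normal rational curves: the images of the standard one under the projectivities. -/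
def IsNRC (C : Set (Submodule F (Fin k → F))) : Prop :=
  ∃ g : (Fin k → F) ≃ₗ[F] (Fin k → F), C = Set.range fun t : Option F => pt (g (stdVec k t))

/-- An `n`-arc of `PG(k - 1, F)`: a set of `n` points (one-dimensional subspaces of `F ^ k`) of which
at most `k - 1` lie in any hyperplane (the kernel of a nonzero linear form). -/
def IsArc (n : ℕ) (A : Set (Submodule F (Fin k → F))) : Prop :=
  (∀ P ∈ A, Module.finrank F P = 1) ∧ A.ncard = n ∧
    ∀ φ : (Fin k → F) →ₗ[F] F, φ ≠ 0 → {P ∈ A | P ≤ LinearMap.ker φ}.ncard ≤ k - 1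

/-! ### Auxiliary curves -/

/-- auxiliary parametrisation -/
def vv (a : Fin k → F) : Option F → (Fin k → F)
  | some t => fun i => ∏ j ∈ univ.erase i, (t - a j)
  | none => fun _ => 1

/-- auxiliary curve -/
def curve (a : Fin k → F) : Set (Submodule F (Fin k → F)) := Set.range fun t => pt (vv a t)

theorem pt_eq_iff (v w : Fin k → F) : pt v = pt w ↔ ∃ c : F, c ≠ 0 ∧ w = c • v := by
  unfold pt
  rw [Submodule.span_singleton_eq_span_singleton]
  constructor
  · rintro ⟨z, hz⟩
    exact ⟨z, z.ne_zero, by rw [← hz]; rfl⟩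
  · rintro ⟨c, hc, h⟩
    exact ⟨Units.mk0 c hc, by rw [h]; rfl⟩

theorem eval_eq (hk : 2 ≤ k) (p : Fin k → F[X]) (c : F) (s : Fin k → F)
    (hs : Function.Injective s) (hdeg : ∀ i, (p i).natDegree ≤ k - 1)
    (hc : ∀ i, (p i).coeff (k - 1) = c) (hz : ∀ i j, i ≠ j → (p i).eval (s j) = 0) (t : F)
    (i : Fin k) : (p i).eval t = c * ∏ j ∈ univ.erase i, (t - s j) := by
  classical
  set r : F[X] := ∏ j ∈ univ.erase i, (X - C (s j)) with hr
  have hrm : r.Monic := monic_prod_of_monic _ _ fun j _ => monic_X_sub_C _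
  have hrd : r.natDegree = k - 1 := by
    rw [hr, natDegree_prod_of_monic _ _ fun j _ => monic_X_sub_C _]
    simp [card_erase_of_mem]
  set D : F[X] := p i - C c * r with hD
  have hDd : D.natDegree ≤ k - 1 := by
    refine (natDegree_sub_le _ _).trans (max_le (hdeg i) ?_)
    exact (natDegree_C_mul_le _ _).trans hrd.le
  have hDc : D.coeff (k - 1) = 0 := by
    rw [hD, coeff_sub, coeff_C_mul, hc i]
    have : r.coeff (k - 1) = 1 := by rw [← hrd]; exact hrm.coeff_natDegree
    rw [this]; ring
  have hDlt : D.natDegree < k - 1 := by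
    rcases lt_or_eq_of_le hDd with h | h
    · exact h
    · exfalso
      have : D.leadingCoeff = 0 := by rw [leadingCoeff, h]; exact hDc
      rw [leadingCoeff_eq_zero] at this
      rw [this] at h
      simp at h
      omega
  have hD0 : D = 0 := by
    refine eq_zero_of_natDegree_lt_card_of_eval_eq_zero' D ((univ.erase i).image s) ?_ ?_
    · intro x hx
      obtain ⟨j, hj, rfl⟩ := mem_image.1 hx
      have hji : j ≠ i := (mem_erase.1 hj).1
      rw [hD, eval_sub, eval_mul, hz i j hji.symm, hr, eval_prod]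
      rw [Finset.prod_eq_zero hj (by simp)]
      ring
    · rw [card_image_of_injective _ hs, card_erase_of_mem (mem_univ _), card_univ,
        Fintype.card_fin]
      exact hDlt
  have : p i = C c * r := by rw [← sub_eq_zero]; exact hD0
  rw [this, hr, eval_mul, eval_C, eval_prod]
  simp

theorem pt_single_ne_one (hk : 2 ≤ k) (j : Fin k) :
    pt (Pi.single j 1 : Fin k → F) ≠ pt (fun _ => 1) := by
  intro h
  obtain ⟨c, hc, h⟩ := (pt_eq_iff _ _).1 h
  have : Nontrivial (Fin k) := Fin.nontrivial_iff_two_le.2 hk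
  obtain ⟨i, hi⟩ := exists_ne j
  have := congrFun h i
  simp [hi] at this

theorem pt_single_inj {i j : Fin k} (h : pt (Pi.single i 1 : Fin k → F) = pt (Pi.single j 1)) :
    i = j := by
  obtain ⟨c, hc, h⟩ := (pt_eq_iff _ _).1 h
  by_contra hij
  have := congrFun h j
  simp [Ne.symm hij] at this

theorem g_apply (g : (Fin k → F) ≃ₗ[F] (Fin k → F)) (w : Fin k → F) (i : Fin k) :
    g w i = ∑ j, w j * g (Pi.single j 1) i := by
  have : w = ∑ j, w j • (Pi.single j 1 : Fin k → F) := by
    ext l
    simp [Finset.sum_apply, Pi.single_apply]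
  conv_lhs => rw [this]
  rw [map_sum]
  simp [Finset.sum_apply, map_smul]

theorem classify (hk : 2 ≤ k) (g : (Fin k → F) ≃ₗ[F] (Fin k → F)) (τ : Option F → Option F)
    (hτ : Function.Surjective τ) (p : Fin k → F[X]) (hdeg : ∀ i, (p i).natDegree ≤ k - 1)
    (hev : ∀ t : F, ∃ c : F, c ≠ 0 ∧ ∀ i, (p i).eval t = c * g (stdVec k (τ (some t))) i)
    (hco : ∃ c : F, c ≠ 0 ∧ ∀ i, (p i).coeff (k - 1) = c * g (stdVec k (τ none)) i)
    (h1 : pt (g (stdVec k (τ none))) = pt (fun _ => 1))
    (he : ∀ j : Fin k, ∃ o : Option F, pt (g (stdVec k o)) = pt (Pi.single j 1)) :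
    ∃ a : Fin k → F, Function.Injective a ∧
      (Set.range fun t : Option F => pt (g (stdVec k t))) = curve a := by
  have he' : ∀ j : Fin k, ∃ x : F, pt (g (stdVec k (τ (some x)))) = pt (Pi.single j 1) := by
    intro j
    obtain ⟨o, ho⟩ := he j
    obtain ⟨o', rfl⟩ := hτ o
    cases o' with
    | none => exact absurd (ho.symm.trans h1) (pt_single_ne_one hk j)
    | some x => exact ⟨x, ho⟩
  choose a ha using he'
  have ainj : Function.Injective a := by
    intro i j hij
    apply pt_single_inj (F := F)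
    rw [← ha i, ← ha j, hij]
  obtain ⟨c0, hc0, hco⟩ := hco
  obtain ⟨c1, hc1, h1'⟩ := (pt_eq_iff _ _).1 h1
  have hg1 : ∀ i, g (stdVec k (τ none)) i = c1⁻¹ := by
    intro i
    have := congrFun h1' i
    simp only [Pi.smul_apply, smul_eq_mul] at this
    field_simp
    rw [mul_comm]
    exact this.symm
  have key := eval_eq hk p (c0 * c1⁻¹) a ainj hdeg (fun i => by rw [hco, hg1])
    (by
      intro i j hij
      obtain ⟨c, hc, h⟩ := (pt_eq_iff _ _).1 (ha j)
      obtain ⟨d, hd, h'⟩ := hev (a j)
      have := congrFun h i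
      simp only [Pi.smul_apply, smul_eq_mul, Pi.single_apply, if_neg hij] at this
      rcases mul_eq_zero.1 this.symm with h0 | h0
      · exact absurd h0 hc
      · rw [h', h0, mul_zero])
  have hpt : ∀ o, pt (g (stdVec k (τ o))) = pt (vv a o) := by
    intro o
    cases o with
    | none => exact h1
    | some t =>
      obtain ⟨c, hc, h⟩ := hev t
      rw [pt_eq_iff]
      refine ⟨(c0 * c1⁻¹)⁻¹ * c, mul_ne_zero (inv_ne_zero (mul_ne_zero hc0 (inv_ne_zero hc1))) hc, ?_⟩
      ext i
      have h2 := key t i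
      rw [h i] at h2
      simp only [vv, Pi.smul_apply, smul_eq_mul]
      rw [mul_assoc, h2]
      field_simp
  refine ⟨a, ainj, ?_⟩
  ext P
  constructor
  · rintro ⟨o, rfl⟩
    obtain ⟨o', rfl⟩ := hτ o
    exact ⟨o', (hpt o').symm⟩
  · rintro ⟨o, rfl⟩
    exact ⟨τ o, hpt o⟩

theorem exists_curve (hk : 2 ≤ k) (C : Set (Submodule F (Fin k → F))) (hC : IsNRC C)
    (h1 : pt (fun _ => 1) ∈ C) (he : ∀ j : Fin k, pt (Pi.single j 1) ∈ C) :
    ∃ a : Fin k → F, Function.Injective a ∧ C = curve a := by
  obtain ⟨g, rfl⟩ := hC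
  obtain ⟨b, hb⟩ := h1
  set G : Fin k → Fin k → F := fun i j => g (Pi.single j 1) i with hG
  have hnone : ∀ i, g (stdVec k none) i = ∑ j : Fin k, (if (j : ℕ) = 0 then 1 else 0) * G i j := by
    intro i
    rw [g_apply]
    rfl
  have hsome : ∀ t i, g (stdVec k (some t)) i = ∑ j : Fin k, t ^ (k - 1 - (j : ℕ)) * G i j := by
    intro t i
    rw [g_apply]
    rfl
  cases b with
  | none =>
    refine classify hk g id Function.surjective_id
      (fun i => ∑ j : Fin k, C (G i j) * X ^ (k - 1 - (j : ℕ))) ?_ ?_ ?_ hb he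
    · intro i
      refine natDegree_sum_le_of_forall_le _ _ fun j _ => ?_
      refine (natDegree_C_mul_X_pow_le _ _).trans (by omega)
    · intro t
      refine ⟨1, one_ne_zero, fun i => ?_⟩
      rw [one_mul, id, hsome, eval_finsetSum]
      refine Finset.sum_congr rfl fun j _ => ?_
      rw [eval_mul, eval_C, eval_pow, eval_X, mul_comm]
    · refine ⟨1, one_ne_zero, fun i => ?_⟩
      rw [one_mul, id, hnone, finsetSum_coeff]
      refine Finset.sum_congr rfl fun j _ => ?_
      rw [coeff_C_mul, coeff_X_pow]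
      have := j.2
      by_cases h : (j : ℕ) = 0
      · simp [h]
      · have h' : ¬ (k - 1 = k - 1 - (j : ℕ)) := by omega
        simp [h, h']
  | some β =>
    classical
    refine classify hk g
      (fun o => match o with
        | none => some β
        | some t => if t = 0 then none else some (β + t⁻¹)) ?_
      (fun i => ∑ j : Fin k, C (G i j) * ((C β * X + 1) ^ (k - 1 - (j : ℕ)) * X ^ (j : ℕ)))
      ?_ ?_ ?_ hb he
    · intro o
      cases o with
      | none => exact ⟨some 0, by simp⟩
      | some u =>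
        by_cases hu : u = β
        · exact ⟨none, by simp [hu]⟩
        · have h0 : (u - β)⁻¹ ≠ 0 := inv_ne_zero (sub_ne_zero.2 hu)
          refine ⟨some (u - β)⁻¹, ?_⟩
          simp only [if_neg h0, inv_inv]
          congr 1
          ring
    · intro i
      refine natDegree_sum_le_of_forall_le _ _ fun j _ => ?_
      refine (natDegree_C_mul_le _ _).trans ?_
      refine natDegree_mul_le.trans ?_
      have h1 : ((C β * X + 1 : F[X]) ^ (k - 1 - (j : ℕ))).natDegree ≤ k - 1 - (j : ℕ) := by
        refine natDegree_pow_le.trans ?_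
        have : (C β * X + 1 : F[X]).natDegree ≤ 1 := by
          have := natDegree_linear_le (a := β) (b := (1 : F))
          simpa using this
        calc _ ≤ (k - 1 - (j : ℕ)) * 1 := Nat.mul_le_mul_left _ this
          _ = _ := mul_one _
      have h2 : (X ^ (j : ℕ) : F[X]).natDegree ≤ j := natDegree_X_pow_le _
      have := j.2
      omega
    · intro t
      by_cases ht : t = 0
      · refine ⟨1, one_ne_zero, fun i => ?_⟩
        simp only [if_pos ht]
        rw [one_mul, hnone, eval_finsetSum]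
        refine Finset.sum_congr rfl fun j _ => ?_
        subst ht
        by_cases h : (j : ℕ) = 0
        · simp [h]
        · simp [h]
      · refine ⟨t ^ (k - 1), pow_ne_zero _ ht, fun i => ?_⟩
        simp only [if_neg ht]
        rw [hsome, eval_finsetSum, Finset.mul_sum]
        refine Finset.sum_congr rfl fun j _ => ?_
        have hj : k - 1 = (k - 1 - (j : ℕ)) + (j : ℕ) := by have := j.2; omega
        have h3 : β * t + 1 = t * (β + t⁻¹) := by field_simp
        simp only [eval_mul, eval_C, eval_pow, eval_add, eval_X, eval_one]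
        rw [h3, mul_pow]
        conv_rhs => rw [hj, pow_add]
        rw [← hj]
        ring
    · refine ⟨1, one_ne_zero, fun i => ?_⟩
      simp only []
      rw [one_mul, hsome, finsetSum_coeff]
      refine Finset.sum_congr rfl fun j _ => ?_
      have hj : k - 1 = (k - 1 - (j : ℕ)) * 1 + (j : ℕ) := by have := j.2; omega
      rw [coeff_C_mul]
      have h4 : ((C β * X + 1 : F[X]) ^ (k - 1 - (j : ℕ)) * X ^ (j : ℕ)).coeff (k - 1) =
          β ^ (k - 1 - (j : ℕ)) := by
        conv_lhs => rw [hj]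
        rw [coeff_mul_X_pow, ← hj]
        have := natDegree_linear_le (a := β) (b := (1 : F))
        rw [C_1] at this
        rw [coeff_pow_of_natDegree_le this]
        simp [coeff_one]
      rw [h4]
      ring

theorem vv_some_self (a : Fin k → F) (i : Fin k) :
    vv a (some (a i)) = (∏ j ∈ univ.erase i, (a i - a j)) • (Pi.single i 1 : Fin k → F) := by
  classical
  ext l
  by_cases h : l = i
  · subst h
    simp [vv]
  · simp only [vv, Pi.smul_apply, smul_eq_mul, Pi.single_apply, if_neg h, mul_zero]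
    exact Finset.prod_eq_zero (mem_erase.2 ⟨Ne.symm h, mem_univ i⟩) (sub_self _)

theorem curve_isNRC (hk : 2 ≤ k) (a : Fin k → F) (ha : Function.Injective a) :
    IsNRC (curve a) := by
  classical
  set p : Fin k → F[X] := fun i => ∏ j ∈ univ.erase i, (X - C (a j)) with hp
  have hpm : ∀ i, (p i).Monic := fun i => monic_prod_of_monic _ _ fun j _ => monic_X_sub_C _
  have hpd : ∀ i, (p i).natDegree = k - 1 := by
    intro i
    rw [hp]
    simp only []
    rw [natDegree_prod_of_monic _ _ fun j _ => monic_X_sub_C _]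
    simp [card_erase_of_mem]
  set L : (Fin k → F) →ₗ[F] (Fin k → F) :=
    Matrix.mulVecLin (Matrix.of fun i j : Fin k => (p i).coeff (k - 1 - (j : ℕ))) with hL
  have hLap : ∀ w i, L w i = ∑ j : Fin k, (p i).coeff (k - 1 - (j : ℕ)) * w j := by
    intro w i
    rfl
  have hLv : ∀ o, L (stdVec k o) = vv a o := by
    intro o
    ext i
    rw [hLap]
    cases o with
    | none =>
      simp only [stdVec, vv]
      rw [Finset.sum_eq_single (⟨0, by omega⟩ : Fin k)]
      · have : (p i).coeff (k - 1) = 1 := by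
          rw [← hpd i]; exact (hpm i).coeff_natDegree
        simp [this]
      · intro j _ hj
        have : (j : ℕ) ≠ 0 := fun h => hj (Fin.ext h)
        simp [this]
      · intro h; exact absurd (mem_univ _) h
    | some t =>
      simp only [stdVec, vv]
      have h1 : (p i).eval t = ∑ m ∈ range k, (p i).coeff m * t ^ m :=
        eval_eq_sum_range' (by rw [hpd i]; omega) t
      have h2 : (p i).eval t = ∏ j ∈ univ.erase i, (t - a j) := by
        rw [hp]
        simp only []
        rw [eval_prod]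
        simp
      rw [← h2, h1, ← Finset.sum_range_reflect, ← Fin.sum_univ_eq_sum_range
        (fun m => (p i).coeff (k - 1 - m) * t ^ (k - 1 - m))]
  have hsurj : Function.Surjective L := by
    rw [← LinearMap.range_eq_top, eq_top_iff, ← (Pi.basisFun F (Fin k)).span_eq,
      Submodule.span_le]
    rintro _ ⟨i, rfl⟩
    rw [Pi.basisFun_apply]
    have h1 : (∏ j ∈ univ.erase i, (a i - a j)) ≠ 0 := by
      refine Finset.prod_ne_zero_iff.2 fun j hj => ?_
      exact sub_ne_zero.2 fun h => (mem_erase.1 hj).1 (ha h.symm)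
    have h2 := hLv (some (a i))
    rw [vv_some_self] at h2
    refine ⟨(∏ j ∈ univ.erase i, (a i - a j))⁻¹ • stdVec k (some (a i)), ?_⟩
    rw [map_smul, h2, smul_smul, inv_mul_cancel₀ h1, one_smul]
  have hinj : Function.Injective L := LinearMap.injective_iff_surjective.2 hsurj
  refine ⟨LinearEquiv.ofBijective L ⟨hinj, hsurj⟩, ?_⟩
  unfold curve
  congr 1
  ext1 o
  change pt (vv a o) = pt (L (stdVec k o))
  rw [hLv]

theorem curve_affine (a : Fin k → F) (l m : F) (hl : l ≠ 0) :
    curve (fun i => l * a i + m) = curve a := by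
  classical
  have h1 : ∀ t : F, pt (vv (fun i => l * a i + m) (some (l * t + m))) = pt (vv a (some t)) := by
    intro t
    symm
    rw [pt_eq_iff]
    refine ⟨l ^ (k - 1), pow_ne_zero _ hl, ?_⟩
    ext i
    simp only [vv, Pi.smul_apply, smul_eq_mul]
    have : ∀ j ∈ univ.erase i, (l * t + m - (l * a j + m)) = l * (t - a j) := by
      intro j _
      ring
    rw [Finset.prod_congr rfl this, Finset.prod_mul_distrib, Finset.prod_const,
      card_erase_of_mem (mem_univ _), card_univ, Fintype.card_fin]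
  ext P
  constructor
  · rintro ⟨o, rfl⟩
    cases o with
    | none => exact ⟨none, rfl⟩
    | some u =>
      refine ⟨some (l⁻¹ * (u - m)), ?_⟩
      have := h1 (l⁻¹ * (u - m))
      simp only []
      rw [← this]
      congr 4
      field_simp
      ring
  · rintro ⟨o, rfl⟩
    cases o with
    | none => exact ⟨none, rfl⟩
    | some u => exact ⟨some (l * u + m), h1 u⟩

theorem mem_curve_params (hk : 2 ≤ k) (a x : Fin k → F) (hx : ∀ i, x i ≠ 0)
    (hx1 : pt x ≠ pt (fun _ => 1)) (h : pt x ∈ curve a) :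
    ∃ l m : F, l ≠ 0 ∧ ∀ i, a i = l * (x i)⁻¹ + m := by
  classical
  obtain ⟨o, ho⟩ := h
  cases o with
  | none => exact absurd ho.symm hx1
  | some t =>
    obtain ⟨c, hc, hx'⟩ := (pt_eq_iff _ _).1 ho
    have hxi : ∀ i, x i = c * ∏ j ∈ univ.erase i, (t - a j) := fun i => congrFun hx' i
    have : Nontrivial (Fin k) := Fin.nontrivial_iff_two_le.2 hk
    have hne : ∀ j, t - a j ≠ 0 := by
      intro j
      obtain ⟨i, hi⟩ := exists_ne j
      have h1 := hx i
      rw [hxi i] at h1
      exact Finset.prod_ne_zero_iff.1 (right_ne_zero_of_mul h1) j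
        (mem_erase.2 ⟨Ne.symm hi, mem_univ _⟩)
    refine ⟨-(c * ∏ j, (t - a j)), t, neg_ne_zero.2 (mul_ne_zero hc
      (Finset.prod_ne_zero_iff.2 fun j _ => hne j)), fun i => ?_⟩
    have h2 : x i * (t - a i) = c * ∏ j, (t - a j) := by
      rw [hxi i, ← Finset.mul_prod_erase univ _ (mem_univ i)]
      ring
    have h3 : t - a i = (c * ∏ j, (t - a j)) * (x i)⁻¹ := by
      rw [← h2]
      have := hx i
      field_simp
    linear_combination -h3

theorem mem_curve_inv (x : Fin k → F) (hx : ∀ i, x i ≠ 0) :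
    pt x ∈ curve (fun i => (x i)⁻¹) := by
  classical
  refine ⟨some 0, ?_⟩
  simp only []
  rw [pt_eq_iff]
  refine ⟨(-1) * (∏ j, (0 - (x j)⁻¹))⁻¹, ?_, ?_⟩
  · refine mul_ne_zero (by simp) (inv_ne_zero (Finset.prod_ne_zero_iff.2 fun j _ => ?_))
    simp [hx j]
  · ext i
    simp only [vv, Pi.smul_apply, smul_eq_mul]
    have h1 := Finset.mul_prod_erase univ (fun j => (0 - (x j)⁻¹)) (mem_univ i)
    have h2 : (∏ j ∈ univ.erase i, (0 - (x j)⁻¹)) ≠ 0 :=
      Finset.prod_ne_zero_iff.2 fun j _ => by simp [hx j]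
    rw [← h1, mul_inv, mul_assoc, mul_assoc, inv_mul_cancel₀ h2, mul_one, zero_sub, inv_neg,
      inv_inv]
    ring

theorem curve_unique (hk : 2 ≤ k) (a a' x : Fin k → F) (hx : ∀ i, x i ≠ 0)
    (hx1 : pt x ≠ pt (fun _ => 1)) (h : pt x ∈ curve a) (h' : pt x ∈ curve a') :
    curve a = curve a' := by
  obtain ⟨l, m, hl, e⟩ := mem_curve_params hk a x hx hx1 h
  obtain ⟨l', m', hl', e'⟩ := mem_curve_params hk a' x hx hx1 h'
  have h1 : a = fun i => l * (x i)⁻¹ + m := funext e
  have h2 : a' = fun i => l' * (x i)⁻¹ + m' := funext e'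
  rw [h1, h2, curve_affine _ l m hl, curve_affine _ l' m' hl']

/-- the curves through the standard frame -/
def frameCurves (F : Type) [Field F] (k : ℕ) : Set (Set (Submodule F (Fin k → F))) :=
  {C | IsNRC C ∧ (∀ j : Fin k, pt (Pi.single j 1) ∈ C) ∧ pt (fun _ => 1) ∈ C}

theorem single_mem_curve (a : Fin k → F) (ha : Function.Injective a) (i : Fin k) :
    pt (Pi.single i 1) ∈ curve a := by
  classical
  refine ⟨some (a i), ?_⟩
  simp only []
  symm
  rw [pt_eq_iff]
  refine ⟨∏ j ∈ univ.erase i, (a i - a j), ?_, vv_some_self a i⟩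
  refine Finset.prod_ne_zero_iff.2 fun j hj => ?_
  exact sub_ne_zero.2 fun h => (mem_erase.1 hj).1 (ha h.symm)

theorem curve_mem_frameCurves (hk : 2 ≤ k) (a : Fin k → F) (ha : Function.Injective a) :
    curve a ∈ frameCurves F k :=
  ⟨curve_isNRC hk a ha, single_mem_curve a ha, ⟨none, rfl⟩⟩

theorem ncard_frameCurves [Fintype F] (m : ℕ) (hq : m + 2 < Fintype.card F) :
    (frameCurves F (m + 2)).ncard = (Fintype.card F - 2).descFactorial m := by
  classical
  set E := Fin m ↪ {x : F // x ≠ 0 ∧ x ≠ 1}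
  set av : E → (Fin (m + 2) → F) := fun e => Fin.cons 0 (Fin.cons 1 fun i => (e i : F)) with hav
  have hinj : ∀ e, Function.Injective (av e) := by
    intro e
    rw [hav]
    simp only []
    rw [Fin.cons_injective_iff, Fin.cons_injective_iff]
    refine ⟨?_, ?_, ?_⟩
    · rintro ⟨i, hi⟩
      refine Fin.cases ?_ (fun j => ?_) i hi
      · simp
      · intro h
        simp only [Fin.cons_succ] at h
        exact (e j).2.1 h
    · rintro ⟨i, hi⟩
      exact (e i).2.2 hi
    · intro i j hij
      exact e.injective (Subtype.ext hij)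
  have h01 : ∀ e, av e 0 = 0 ∧ av e 1 = 1 := fun e => ⟨rfl, rfl⟩
  have hk : 2 ≤ m + 2 := by omega
  have hcard : Fintype.card {x : F // x ≠ 0 ∧ x ≠ 1} = Fintype.card F - 2 := by
    rw [Fintype.card_subtype]
    have : (univ.filter fun x : F => x ≠ 0 ∧ x ≠ 1) = univ \ {0, 1} := by
      ext x
      simp
    rw [this, card_sdiff_of_subset (subset_univ _), card_univ, card_pair zero_ne_one]
  have hΦ : Function.Injective fun e : E => curve (av e) := by
    intro e e' h
    simp only [] at h
    obtain ⟨t0, -, ht0⟩ := exists_mem_notMem_of_card_lt_card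
      (s := univ.image (av e)) (t := univ) (lt_of_le_of_lt card_image_le (by
        rw [card_univ, Fintype.card_fin, card_univ]; exact hq))
    have ht : ∀ j, t0 - av e j ≠ 0 := fun j => sub_ne_zero.2 fun h =>
      ht0 (mem_image.2 ⟨j, mem_univ _, h.symm⟩)
    set x : Fin (m + 2) → F := vv (av e) (some t0) with hx
    have hx0 : ∀ i, x i ≠ 0 := fun i => Finset.prod_ne_zero_iff.2 fun j _ => ht j
    have hxi : ∀ i, x i * (t0 - av e i) = ∏ j, (t0 - av e j) := by
      intro i
      rw [← Finset.mul_prod_erase univ _ (mem_univ i), mul_comm]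
      rfl
    have hx1 : pt x ≠ pt (fun _ => 1) := by
      intro h1
      obtain ⟨c, hc, h1⟩ := (pt_eq_iff _ _).1 h1
      have e0 := congrFun h1 0
      have e1 := congrFun h1 1
      simp only [Pi.smul_apply, smul_eq_mul] at e0 e1
      have e01 : x 0 = x 1 := mul_left_cancel₀ hc (e0.symm.trans e1)
      have h2 := (hxi 0).trans (hxi 1).symm
      rw [e01] at h2
      have h3 := mul_left_cancel₀ (hx0 1) h2
      rw [(h01 e).1, (h01 e).2] at h3
      have : (1 : F) = 0 := by linear_combination h3
      exact one_ne_zero this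
    have hm : pt x ∈ curve (av e) := ⟨some t0, rfl⟩
    have hm' : pt x ∈ curve (av e') := by rw [← h]; exact hm
    obtain ⟨l, n, hl, el⟩ := mem_curve_params hk _ x hx0 hx1 hm
    obtain ⟨l', n', hl', el'⟩ := mem_curve_params hk _ x hx0 hx1 hm'
    have a0 := el 0
    have a1 := el 1
    have b0 := el' 0
    have b1 := el' 1
    rw [(h01 e).1] at a0
    rw [(h01 e).2] at a1
    rw [(h01 e').1] at b0
    rw [(h01 e').2] at b1
    have hll : l = l' := by
      have h5 : l * ((x 1)⁻¹ - (x 0)⁻¹) = 1 := by linear_combination a0 - a1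
      have h6 : l' * ((x 1)⁻¹ - (x 0)⁻¹) = 1 := by linear_combination b0 - b1
      have h7 : (x 1)⁻¹ - (x 0)⁻¹ ≠ 0 := right_ne_zero_of_mul (h5.trans_ne one_ne_zero)
      exact mul_right_cancel₀ h7 (h5.trans h6.symm)
    have hnn : n = n' := by
      rw [← hll] at b0
      linear_combination b0 - a0
    have : av e = av e' := by
      ext i
      rw [el i, el' i, hll, hnn]
    ext i
    have := congrFun this i.succ.succ
    simpa [hav] using this
  have hrange : frameCurves F (m + 2) = Set.range fun e : E => curve (av e) := by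
    ext C
    constructor
    · rintro ⟨hC, he, h1⟩
      obtain ⟨a, ha, rfl⟩ := exists_curve hk C hC h1 he
      have hd : a 1 - a 0 ≠ 0 := sub_ne_zero.2 (ha.ne (by simp))
      set a' : Fin (m + 2) → F := fun i => (a 1 - a 0)⁻¹ * a i + (-(a 1 - a 0)⁻¹ * a 0) with ha'
      have hc : curve a' = curve a := curve_affine a _ _ (inv_ne_zero hd)
      have h0 : a' 0 = 0 := by rw [ha']; simp only []; ring
      have h1' : a' 1 = 1 := by rw [ha']; simp only []; field_simp; ring
      have hinj' : Function.Injective a' := by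
        intro i j hij
        rw [ha'] at hij
        simp only [] at hij
        apply ha
        have := add_right_cancel hij
        exact mul_left_cancel₀ (inv_ne_zero hd) this
      refine ⟨⟨fun i => ⟨a' i.succ.succ, ?_, ?_⟩, ?_⟩, ?_⟩
      · rw [← h0]
        exact hinj'.ne (Fin.succ_ne_zero _)
      · rw [← h1']
        refine hinj'.ne ?_
        rw [← Fin.succ_zero_eq_one]
        exact fun h => Fin.succ_ne_zero _ (Fin.succ_injective _ h)
      · intro i j hij
        have := hinj' (Subtype.ext_iff.1 hij)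
        exact Fin.succ_injective _ (Fin.succ_injective _ this)
      · simp only []
        rw [← hc]
        congr 1
        ext i
        refine Fin.cases ?_ (fun i => ?_) i
        · exact (h01 _).1.trans h0.symm
        · refine Fin.cases ?_ (fun i => ?_) i
          · exact (h01 _).2.trans h1'.symm
          · rfl
    · rintro ⟨e, rfl⟩
      exact curve_mem_frameCurves hk _ (hinj e)
  rw [hrange, Set.ncard_range_of_injective hΦ, Nat.card_eq_fintype_card,
    Fintype.card_embedding_eq, Fintype.card_fin, hcard]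

/-! ### Projectivities -/

/-- the action of a linear automorphism on sets of points -/
def act (g : (Fin k → F) ≃ₗ[F] (Fin k → F)) (C : Set (Submodule F (Fin k → F))) :
    Set (Submodule F (Fin k → F)) :=
  (fun P => P.map (g : (Fin k → F) →ₗ[F] (Fin k → F))) '' C

theorem map_pt (g : (Fin k → F) ≃ₗ[F] (Fin k → F)) (v : Fin k → F) :
    (pt v).map (g : (Fin k → F) →ₗ[F] (Fin k → F)) = pt (g v) := by
  unfold pt
  rw [Submodule.map_span, Set.image_singleton]
  rfl

theorem map_inj (g : (Fin k → F) ≃ₗ[F] (Fin k → F)) :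
    Function.Injective fun P : Submodule F (Fin k → F) =>
      P.map (g : (Fin k → F) →ₗ[F] (Fin k → F)) :=
  Submodule.map_injective_of_injective g.injective

theorem act_injective (g : (Fin k → F) ≃ₗ[F] (Fin k → F)) : Function.Injective (act g) :=
  (map_inj g).image_injective

theorem act_isNRC (g : (Fin k → F) ≃ₗ[F] (Fin k → F)) {C : Set (Submodule F (Fin k → F))}
    (h : IsNRC C) : IsNRC (act g C) := by
  obtain ⟨f, rfl⟩ := h
  refine ⟨f.trans g, ?_⟩
  unfold act
  rw [← Set.range_comp]
  congr 1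
  ext1 o
  simp only [Function.comp]
  rw [map_pt]
  rfl

theorem map_map_symm (g : (Fin k → F) ≃ₗ[F] (Fin k → F)) (P : Submodule F (Fin k → F)) :
    (P.map (g.symm : (Fin k → F) →ₗ[F] (Fin k → F))).map
      (g : (Fin k → F) →ₗ[F] (Fin k → F)) = P := by
  rw [← Submodule.map_comp]
  simp

theorem map_symm_map (g : (Fin k → F) ≃ₗ[F] (Fin k → F)) (P : Submodule F (Fin k → F)) :
    (P.map (g : (Fin k → F) →ₗ[F] (Fin k → F))).map
      (g.symm : (Fin k → F) →ₗ[F] (Fin k → F)) = P := by
  rw [← Submodule.map_comp]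
  simp

theorem act_symm (g : (Fin k → F) ≃ₗ[F] (Fin k → F)) (C : Set (Submodule F (Fin k → F))) :
    act g (act g.symm C) = C := by
  ext P
  constructor
  · rintro ⟨_, ⟨P, hP, rfl⟩, rfl⟩
    simp only []
    rw [map_map_symm]
    exact hP
  · intro hP
    exact ⟨_, ⟨P, hP, rfl⟩, map_map_symm g P⟩

/-- the normal rational curves that contain `A` -/
def curvesThrough (A : Set (Submodule F (Fin k → F))) : Set (Set (Submodule F (Fin k → F))) :=
  {C | IsNRC C ∧ A ⊆ C}

theorem curvesThrough_act (g : (Fin k → F) ≃ₗ[F] (Fin k → F))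
    (A : Set (Submodule F (Fin k → F))) :
    curvesThrough (act g A) = act g '' curvesThrough A := by
  ext C
  constructor
  · rintro ⟨hC, hA⟩
    refine ⟨act g.symm C, ⟨act_isNRC _ hC, ?_⟩, act_symm g C⟩
    intro P hP
    refine ⟨P.map (g : (Fin k → F) →ₗ[F] (Fin k → F)), hA ⟨P, hP, rfl⟩, ?_⟩
    exact map_symm_map g P
  · rintro ⟨C, ⟨hC, hA⟩, rfl⟩
    exact ⟨act_isNRC g hC, Set.image_mono hA⟩

theorem ncard_act (g : (Fin k → F) ≃ₗ[F] (Fin k → F)) (A : Set (Submodule F (Fin k → F))) :
    (curvesThrough (act g A)).ncard = (curvesThrough A).ncard := by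
  rw [curvesThrough_act, Set.ncard_image_of_injective _ (act_injective g)]

theorem act_isArc (g : (Fin k → F) ≃ₗ[F] (Fin k → F)) {n : ℕ}
    {A : Set (Submodule F (Fin k → F))} (h : IsArc n A) : IsArc n (act g A) := by
  obtain ⟨h1, h2, h3⟩ := h
  refine ⟨?_, ?_, ?_⟩
  · rintro _ ⟨P, hP, rfl⟩
    simp only []
    rw [LinearEquiv.finrank_map_eq]
    exact h1 P hP
  · rw [act, Set.ncard_image_of_injective _ (map_inj g)]
    exact h2
  · intro φ hφ
    have hne : φ ∘ₗ (g : (Fin k → F) →ₗ[F] (Fin k → F)) ≠ 0 := by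
      intro h0
      apply hφ
      ext1 i
      ext1
      have := LinearMap.congr_fun h0 (g.symm (Pi.single i 1))
      simpa using this
    have : {P ∈ act g A | P ≤ LinearMap.ker φ} =
        (fun P : Submodule F (Fin k → F) => P.map (g : (Fin k → F) →ₗ[F] (Fin k → F))) ''
          {P ∈ A | P ≤ LinearMap.ker (φ ∘ₗ (g : (Fin k → F) →ₗ[F] (Fin k → F)))} := by
      ext P
      constructor
      · rintro ⟨⟨P, hP, rfl⟩, hle⟩
        refine ⟨P, ⟨hP, ?_⟩, rfl⟩
        rw [LinearMap.ker_comp, ← Submodule.map_le_iff_le_comap]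
        exact hle
      · rintro ⟨P, ⟨hP, hle⟩, rfl⟩
        refine ⟨⟨P, hP, rfl⟩, ?_⟩
        rw [LinearMap.ker_comp, ← Submodule.map_le_iff_le_comap] at hle
        exact hle
    rw [this, Set.ncard_image_of_injective _ (map_inj g)]
    exact h3 _ hne

theorem exists_vec (P : Submodule F (Fin k → F)) (h : Module.finrank F P = 1) :
    ∃ v : Fin k → F, P = pt v := by
  obtain ⟨v, -, hv⟩ := finrank_eq_one_iff'.1 h
  refine ⟨v, le_antisymm ?_ ?_⟩
  · intro w hw
    obtain ⟨c, hc⟩ := hv ⟨w, hw⟩
    rw [Submodule.mem_span_singleton]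
    exact ⟨c, by rw [← Submodule.coe_smul, hc]⟩
  · rw [Submodule.span_singleton_le_iff_mem]
    exact v.2

theorem exists_basis_arc [Finite F] (hk : 2 ≤ k) {n : ℕ} {A : Set (Submodule F (Fin k → F))}
    (h : IsArc n A) (hn : k ≤ n) :
    ∃ g : (Fin k → F) ≃ₗ[F] (Fin k → F), ∀ j : Fin k, pt (Pi.single j 1) ∈ act g A := by
  classical
  obtain ⟨h1, h2, h3⟩ := h
  obtain ⟨B, hBA, hB⟩ := Set.exists_subset_card_eq (s := A) (n := k) (by rw [h2]; exact hn)
  have hBc : Nat.card B = k := by rw [Nat.card_coe_set_eq]; exact hB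
  have : Finite B := Set.toFinite B
  set e : B ≃ Fin k := Finite.equivFinOfCardEq hBc with he
  have hv : ∀ j : Fin k, ∃ v : Fin k → F, (e.symm j : Submodule F (Fin k → F)) = pt v :=
    fun j => exists_vec _ (h1 _ (hBA (e.symm j).2))
  choose w hw using hv
  have hspan : ⊤ ≤ span F (Set.range w) := by
    by_contra hlt
    rw [top_le_iff] at hlt
    obtain ⟨φ, hφ, hle⟩ := Submodule.exists_le_ker_of_lt_top _ (lt_top_iff_ne_top.2 hlt)
    have h4 := h3 φ hφ
    have h5 : B ⊆ {P ∈ A | P ≤ LinearMap.ker φ} := by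
      intro P hP
      refine ⟨hBA hP, ?_⟩
      have h6 := hw (e ⟨P, hP⟩)
      rw [Equiv.symm_apply_apply] at h6
      simp only [] at h6
      rw [h6, Submodule.span_singleton_le_iff_mem]
      exact hle (Submodule.subset_span ⟨_, rfl⟩)
    have h7 := Set.ncard_le_ncard h5 (Set.toFinite _)
    rw [hB] at h7
    omega
  set b := basisOfTopLeSpanOfCardEqFinrank w hspan (by simp) with hb
  refine ⟨b.equivFun, fun j => ⟨e.symm j, hBA (e.symm j).2, ?_⟩⟩
  simp only []
  rw [hw j, map_pt]
  congr 1
  have h8 : w j = b j := by rw [hb, coe_basisOfTopLeSpanOfCardEqFinrank]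
  rw [h8]
  ext l
  rw [Module.Basis.equivFun_self]
  simp [Pi.single_apply, eq_comm]

theorem coord_ne_zero [Finite F] (hk : 2 ≤ k) {n : ℕ} {A : Set (Submodule F (Fin k → F))}
    (h : IsArc n A) (he : ∀ j : Fin k, pt (Pi.single j 1) ∈ A) (x : Fin k → F) (hx : pt x ∈ A)
    (hx' : ∀ j : Fin k, pt x ≠ pt (Pi.single j 1)) (i : Fin k) : x i ≠ 0 := by
  classical
  intro hxi
  obtain ⟨h1, h2, h3⟩ := h
  have h4 := h3 (LinearMap.proj i) (by
    intro h0
    have := LinearMap.congr_fun h0 (Pi.single i 1)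
    simp at this)
  set T : Finset (Submodule F (Fin k → F)) :=
    insert (pt x) ((univ.erase i).image fun j => pt (Pi.single j 1)) with hT
  have hTc : T.card = k := by
    rw [hT, card_insert_of_notMem, card_image_of_injective, card_erase_of_mem (mem_univ _),
      card_univ, Fintype.card_fin]
    · omega
    · intro a b hab
      exact pt_single_inj hab
    · intro hmem
      obtain ⟨j, -, hj⟩ := mem_image.1 hmem
      exact hx' j hj.symm
  have hsub : (T : Set (Submodule F (Fin k → F))) ⊆
      {P ∈ A | P ≤ LinearMap.ker (LinearMap.proj i : (Fin k → F) →ₗ[F] F)} := by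
    intro P hP
    rcases mem_insert.1 (mem_coe.1 hP) with rfl | hP
    · refine ⟨hx, ?_⟩
      rw [Submodule.span_singleton_le_iff_mem, LinearMap.mem_ker]
      exact hxi
    · obtain ⟨j, hj, rfl⟩ := mem_image.1 hP
      refine ⟨he j, ?_⟩
      rw [Submodule.span_singleton_le_iff_mem, LinearMap.mem_ker]
      simp [Ne.symm (mem_erase.1 hj).1]
  have h5 := Set.ncard_le_ncard hsub (Set.toFinite _)
  rw [Set.ncard_coe_finset, hTc] at h5
  omega

theorem coord_distinct [Finite F] (hk : 2 ≤ k) {n : ℕ} {A : Set (Submodule F (Fin k → F))}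
    (h : IsArc n A) (he : ∀ j : Fin k, pt (Pi.single j 1) ∈ A) (h1' : pt (fun _ => 1) ∈ A)
    (x : Fin k → F) (hx : pt x ∈ A)
    (hx' : ∀ j : Fin k, pt x ≠ pt (Pi.single j 1)) (hx1 : pt x ≠ pt (fun _ => 1)) :
    Function.Injective x := by
  classical
  intro i j hij
  by_contra hne
  obtain ⟨h1, h2, h3⟩ := h
  set φ : (Fin k → F) →ₗ[F] F := (LinearMap.proj i : (Fin k → F) →ₗ[F] F) -
    (LinearMap.proj j : (Fin k → F) →ₗ[F] F) with hφ
  have h4 := h3 φ (by
    intro h0
    have := LinearMap.congr_fun h0 (Pi.single i 1)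
    simp [hφ, Ne.symm hne] at this)
  set T : Finset (Submodule F (Fin k → F)) := insert (pt x) (insert (pt (fun _ => 1))
    (((univ.erase i).erase j).image fun l => pt (Pi.single l 1))) with hT
  have hTc : T.card = k := by
    rw [hT, card_insert_of_notMem, card_insert_of_notMem, card_image_of_injective,
      card_erase_of_mem (mem_erase.2 ⟨Ne.symm hne, mem_univ _⟩), card_erase_of_mem (mem_univ _),
      card_univ, Fintype.card_fin]
    · omega
    · intro a b hab
      exact pt_single_inj hab
    · intro hmem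
      obtain ⟨l, -, hl⟩ := mem_image.1 hmem
      exact pt_single_ne_one hk l hl
    · intro hmem
      rcases mem_insert.1 hmem with hmem | hmem
      · exact hx1 hmem
      · obtain ⟨l, -, hl⟩ := mem_image.1 hmem
        exact hx' l hl.symm
  have hsub : (T : Set (Submodule F (Fin k → F))) ⊆ {P ∈ A | P ≤ LinearMap.ker φ} := by
    intro P hP
    rcases mem_insert.1 (mem_coe.1 hP) with rfl | hP
    · refine ⟨hx, ?_⟩
      rw [Submodule.span_singleton_le_iff_mem, LinearMap.mem_ker]
      simp [hφ, hij]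
    · rcases mem_insert.1 hP with rfl | hP
      · refine ⟨h1', ?_⟩
        rw [Submodule.span_singleton_le_iff_mem, LinearMap.mem_ker]
        simp [hφ]
      · obtain ⟨l, hl, rfl⟩ := mem_image.1 hP
        refine ⟨he l, ?_⟩
        rw [Submodule.span_singleton_le_iff_mem, LinearMap.mem_ker]
        have hl1 := (mem_erase.1 hl).1
        have hl2 := (mem_erase.1 (mem_erase.1 hl).2).1
        simp [hφ, Ne.symm hl1, Ne.symm hl2]
  have h5 := Set.ncard_le_ncard hsub (Set.toFinite _)
  rw [Set.ncard_coe_finset, hTc] at h5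
  omega

/-- diagonal maps -/
def diag (x : Fin k → F) (hx : ∀ i, x i ≠ 0) : (Fin k → F) ≃ₗ[F] (Fin k → F) :=
  LinearEquiv.piCongrRight fun i => LinearEquiv.smulOfNeZero F F (x i) (hx i)

theorem diag_apply (x : Fin k → F) (hx : ∀ i, x i ≠ 0) (v : Fin k → F) (i : Fin k) :
    diag x hx v i = x i * v i := rfl

theorem pt_diag_single (x : Fin k → F) (hx : ∀ i, x i ≠ 0) (j : Fin k) :
    pt (diag x hx (Pi.single j 1)) = pt (Pi.single j 1) := by
  symm
  rw [pt_eq_iff]
  refine ⟨x j, hx j, ?_⟩
  ext i
  rw [diag_apply]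
  by_cases h : i = j
  · subst h; simp
  · simp [h]

theorem act_trans (g d : (Fin k → F) ≃ₗ[F] (Fin k → F)) (A : Set (Submodule F (Fin k → F))) :
    act (g.trans d) A = act d (act g A) := by
  unfold act
  rw [Set.image_image]
  congr 1
  ext1 P
  rw [← Submodule.map_comp]
  rfl

theorem exists_frame [Finite F] (hk : 2 ≤ k) {n : ℕ} {A : Set (Submodule F (Fin k → F))}
    (h : IsArc n A) (hn : k + 1 ≤ n) :
    ∃ g : (Fin k → F) ≃ₗ[F] (Fin k → F), (∀ j : Fin k, pt (Pi.single j 1) ∈ act g A) ∧
      pt (fun _ => 1) ∈ act g A := by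
  classical
  obtain ⟨g, hg⟩ := exists_basis_arc hk h (by omega)
  have hA' := act_isArc g h
  have : ∃ P ∈ act g A, ∀ j : Fin k, P ≠ pt (Pi.single j 1) := by
    by_contra hcon
    push Not at hcon
    have hsub : act g A ⊆ ((univ.image fun j : Fin k => pt (Pi.single j 1) :
        Finset (Submodule F (Fin k → F))) : Set (Submodule F (Fin k → F))) := by
      intro P hP
      obtain ⟨j, hj⟩ := hcon P hP
      exact mem_coe.2 (mem_image.2 ⟨j, mem_univ _, hj.symm⟩)
    have h1 := Set.ncard_le_ncard hsub (Set.toFinite _)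
    rw [Set.ncard_coe_finset, hA'.2.1] at h1
    have h2 := h1.trans card_image_le
    rw [card_univ, Fintype.card_fin] at h2
    omega
  obtain ⟨P, hP, hPj⟩ := this
  obtain ⟨x, rfl⟩ := exists_vec P (hA'.1 P hP)
  have hx := coord_ne_zero hk hA' hg x hP hPj
  refine ⟨g.trans (diag (fun i => (x i)⁻¹) fun i => inv_ne_zero (hx i)), fun j => ?_, ?_⟩
  · rw [act_trans]
    refine ⟨_, hg j, ?_⟩
    simp only []
    rw [map_pt, pt_diag_single]
  · rw [act_trans]
    refine ⟨_, hP, ?_⟩
    simp only []
    rw [map_pt]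
    congr 1
    ext i
    rw [diag_apply, inv_mul_cancel₀ (hx i)]

theorem mem_act (g : (Fin k → F) ≃ₗ[F] (Fin k → F)) (C : Set (Submodule F (Fin k → F)))
    (P : Submodule F (Fin k → F)) :
    P ∈ act g C ↔ P.map (g.symm : (Fin k → F) →ₗ[F] (Fin k → F)) ∈ C := by
  constructor
  · rintro ⟨Q, hQ, rfl⟩
    simp only []
    rw [map_symm_map]
    exact hQ
  · intro h
    exact ⟨_, h, map_map_symm g P⟩

/-- the points of the standard basis -/
def baseSet (F : Type) [Field F] (k : ℕ) : Set (Submodule F (Fin k → F)) :=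
  Set.range fun j : Fin k => pt (Pi.single j 1)

theorem ncard_baseSet : (baseSet F k).ncard = k := by
  rw [baseSet, Set.ncard_range_of_injective fun a b h => pt_single_inj h]
  simp

theorem ncard_insert_baseSet [Finite F] (P : Submodule F (Fin k → F))
    (h : ∀ j : Fin k, P ≠ pt (Pi.single j 1)) : (insert P (baseSet F k)).ncard = k + 1 := by
  rw [Set.ncard_insert_of_notMem, ncard_baseSet]
  rintro ⟨j, hj⟩
  exact h j hj.symm

theorem ncard_of_succ [Finite F] (hk : 2 ≤ k) {A : Set (Submodule F (Fin k → F))}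
    (h : IsArc (k + 1) A) : (curvesThrough A).ncard = (frameCurves F k).ncard := by
  obtain ⟨g, hg, hg1⟩ := exists_frame hk h le_rfl
  rw [← ncard_act g]
  have hT : insert (pt (fun _ => 1)) (baseSet F k) = act g A := by
    refine Set.eq_of_subset_of_ncard_le ?_ ?_ (Set.toFinite _)
    · rintro P (rfl | ⟨j, rfl⟩)
      · exact hg1
      · exact hg j
    · rw [(act_isArc g h).2.1, ncard_insert_baseSet _ fun j h => pt_single_ne_one hk j h.symm]
  rw [← hT]
  congr 1
  ext C
  constructor
  · rintro ⟨hC, hA⟩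
    exact ⟨hC, fun j => hA (Or.inr ⟨j, rfl⟩), hA (Or.inl rfl)⟩
  · rintro ⟨hC, he, h1⟩
    refine ⟨hC, ?_⟩
    rintro P (rfl | ⟨j, rfl⟩)
    · exact h1
    · exact he j

theorem opt_zero [DecidableEq F] (hk : 1 ≤ k) (p : F[X]) (hd : p.natDegree ≤ k - 1)
    (T : Finset (Option F)) (hT : T.card = k) (h0 : ∀ t : F, some t ∈ T → p.eval t = 0)
    (h1 : none ∈ T → p.coeff (k - 1) = 0) : p = 0 := by
  classical
  by_cases hn : none ∈ T
  · have hc := h1 hn
    by_contra hp
    have hlt : p.natDegree < k - 1 := by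
      rcases lt_or_eq_of_le hd with h | h
      · exact h
      · exfalso
        apply hp
        rw [← leadingCoeff_eq_zero, leadingCoeff, h]
        exact hc
    apply hp
    refine eq_zero_of_natDegree_lt_card_of_eval_eq_zero' p T.eraseNone ?_ ?_
    · intro t ht
      exact h0 t (Finset.mem_eraseNone.1 ht)
    · rw [Finset.card_eraseNone_of_mem hn, hT]
      exact hlt
  · refine eq_zero_of_natDegree_lt_card_of_eval_eq_zero' p T.eraseNone ?_ ?_
    · intro t ht
      exact h0 t (Finset.mem_eraseNone.1 ht)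
    · rw [Finset.card_eraseNone_of_not_mem hn, hT]
      omega

theorem coord_of_curve (hk : 2 ≤ k) (g : (Fin k → F) ≃ₗ[F] (Fin k → F)) (s : Fin k → Option F)
    (hs : ∀ j, pt (g (stdVec k (s j))) = pt (Pi.single j 1)) (o : Option F) (ho : ∀ j, o ≠ s j)
    (i : Fin k) : g (stdVec k o) i ≠ 0 := by
  classical
  intro h0
  have sinj : Function.Injective s := by
    intro a b hab
    apply pt_single_inj (F := F)
    rw [← hs a, ← hs b, hab]
  set p : F[X] := ∑ j : Fin k, C (g (Pi.single j 1) i) * X ^ (k - 1 - (j : ℕ)) with hp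
  have hev : ∀ t, p.eval t = g (stdVec k (some t)) i := by
    intro t
    rw [g_apply, hp, eval_finsetSum]
    refine Finset.sum_congr rfl fun j _ => ?_
    rw [eval_mul, eval_C, eval_pow, eval_X, mul_comm]
    rfl
  have hco : p.coeff (k - 1) = g (stdVec k none) i := by
    rw [g_apply, hp, finsetSum_coeff]
    refine Finset.sum_congr rfl fun j _ => ?_
    rw [coeff_C_mul, coeff_X_pow]
    have := j.2
    by_cases h : (j : ℕ) = 0
    · simp [h, stdVec]
    · have h' : ¬ (k - 1 = k - 1 - (j : ℕ)) := by omega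
      simp [h, h', stdVec]
  have hd : p.natDegree ≤ k - 1 := by
    refine natDegree_sum_le_of_forall_le _ _ fun j _ => ?_
    refine (natDegree_C_mul_X_pow_le _ _).trans (by omega)
  have hall : ∀ o' ∈ insert o ((univ.erase i).image s), g (stdVec k o') i = 0 := by
    intro o' ho'
    rcases mem_insert.1 ho' with rfl | ho'
    · exact h0
    · obtain ⟨j, hj, rfl⟩ := mem_image.1 ho'
      obtain ⟨c, hc, h⟩ := (pt_eq_iff _ _).1 (hs j)
      have := congrFun h i
      simp only [Pi.smul_apply, smul_eq_mul, Pi.single_apply,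
        if_neg (Ne.symm (mem_erase.1 hj).1)] at this
      exact (mul_eq_zero.1 this.symm).resolve_left hc
  have hz : p = 0 := by
    refine opt_zero (by omega) p hd (insert o ((univ.erase i).image s)) ?_ ?_ ?_
    · rw [card_insert_of_notMem, card_image_of_injective _ sinj, card_erase_of_mem (mem_univ _),
        card_univ, Fintype.card_fin]
      · omega
      · intro hmem
        obtain ⟨j, -, hj⟩ := mem_image.1 hmem
        exact ho j hj.symm
    · intro t ht
      rw [hev]
      exact hall _ ht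
    · intro hn
      rw [hco]
      exact hall _ hn
  have hzero : ∀ o', g (stdVec k o') i = 0 := by
    intro o'
    cases o' with
    | none => rw [← hco, hz, coeff_zero]
    | some t => rw [← hev, hz, eval_zero]
  obtain ⟨c, hc, h⟩ := (pt_eq_iff _ _).1 (hs i)
  have := congrFun h i
  simp [hzero] at this

theorem pt_stdVec_injective (hk : 2 ≤ k) (g : (Fin k → F) ≃ₗ[F] (Fin k → F)) :
    Function.Injective fun o : Option F => pt (g (stdVec k o)) := by
  intro o o' h
  simp only [] at h
  obtain ⟨c, hc, h⟩ := (pt_eq_iff _ _).1 h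
  rw [← map_smul] at h
  have h := g.injective h
  have h1 := congrFun h ⟨k - 1, by omega⟩
  have h2 := congrFun h ⟨k - 2, by omega⟩
  have e1 : k - 1 - (k - 2) = 1 := by omega
  have e2 : k - 1 ≠ 0 := by omega
  cases o with
  | none =>
    cases o' with
    | none => rfl
    | some t => simp [stdVec, e2] at h1
  | some t =>
    cases o' with
    | none =>
      simp [stdVec, e2] at h1
      exact absurd h1.symm hc
    | some u =>
      simp [stdVec] at h1
      simp [stdVec, e1, ← h1] at h2
      rw [h2]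

theorem ncard_points [Fintype F] (hk : 2 ≤ k) (C : Set (Submodule F (Fin k → F)))
    (hC : IsNRC C) (he : ∀ j : Fin k, pt (Pi.single j 1) ∈ C) :
    {P | (∃ x : Fin k → F, (∀ i, x i ≠ 0) ∧ P = pt x) ∧ P ∈ C}.ncard =
      Fintype.card F + 1 - k := by
  classical
  obtain ⟨g, rfl⟩ := hC
  choose s hs using he
  have hs' : ∀ j, pt (g (stdVec k (s j))) = pt (Pi.single j 1) := hs
  have sinj : Function.Injective s := by
    intro a b hab
    apply pt_single_inj (F := F)
    rw [← hs' a, ← hs' b, hab]
  have hset : {P | (∃ x : Fin k → F, (∀ i, x i ≠ 0) ∧ P = pt x) ∧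
      P ∈ Set.range fun t : Option F => pt (g (stdVec k t))} =
      (fun t : Option F => pt (g (stdVec k t))) '' ((univ \ univ.image s : Finset (Option F)) :
        Set (Option F)) := by
    ext P
    constructor
    · rintro ⟨⟨x, hx, hP⟩, ⟨o, ho⟩⟩
      refine ⟨o, ?_, ho⟩
      rw [mem_coe, mem_sdiff]
      refine ⟨mem_univ _, fun hmem => ?_⟩
      obtain ⟨j, -, rfl⟩ := mem_image.1 hmem
      simp only [] at ho
      rw [hs', hP] at ho
      obtain ⟨c, hc, h⟩ := (pt_eq_iff _ _).1 ho
      have : Nontrivial (Fin k) := Fin.nontrivial_iff_two_le.2 hk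
      obtain ⟨i, hi⟩ := exists_ne j
      have := congrFun h i
      simp [hi] at this
      exact hx i this
    · rintro ⟨o, ho, rfl⟩
      rw [mem_coe, mem_sdiff] at ho
      refine ⟨⟨_, coord_of_curve hk g s hs' o fun j h => ho.2 ?_, rfl⟩, ⟨o, rfl⟩⟩
      exact mem_image.2 ⟨j, mem_univ _, h.symm⟩
  rw [hset, Set.ncard_image_of_injective _ (pt_stdVec_injective hk g), Set.ncard_coe_finset,
    card_sdiff_of_subset (subset_univ _), card_univ, card_image_of_injective _ sinj, card_univ,
    Fintype.card_option, Fintype.card_fin]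

theorem ncard_star [Finite F] (x : Fin k → F) (hx : ∀ i, x i ≠ 0) :
    {C | (IsNRC C ∧ ∀ j : Fin k, pt (Pi.single j 1) ∈ C) ∧ pt x ∈ C}.ncard =
      (frameCurves F k).ncard := by
  set d := diag x hx with hd
  have hd1 : d (fun _ => 1) = x := by
    ext i
    rw [hd, diag_apply, mul_one]
  have hs1 : d.symm x = fun _ => 1 := by rw [LinearEquiv.symm_apply_eq, hd1]
  have hsj : ∀ j : Fin k, (pt (Pi.single j 1)).map
      (d.symm : (Fin k → F) →ₗ[F] (Fin k → F)) = pt (Pi.single j 1) := by
    intro j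
    have h1 := pt_diag_single x hx j
    rw [← hd] at h1
    conv_lhs => rw [← h1, ← map_pt]
    exact map_symm_map d _
  have : {C | (IsNRC C ∧ ∀ j : Fin k, pt (Pi.single j 1) ∈ C) ∧ pt x ∈ C} =
      act d '' frameCurves F k := by
    ext C
    constructor
    · rintro ⟨⟨hC, he⟩, hxC⟩
      refine ⟨act d.symm C, ⟨act_isNRC _ hC, fun j => ?_, ?_⟩, act_symm d C⟩
      · exact ⟨_, he j, hsj j⟩
      · refine ⟨_, hxC, ?_⟩
        simp only []
        rw [map_pt, hs1]
    · rintro ⟨C, ⟨hC, he, h1⟩, rfl⟩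
      refine ⟨⟨act_isNRC _ hC, fun j => ?_⟩, ?_⟩
      · rw [mem_act, hsj]
        exact he j
      · rw [mem_act, map_pt, hs1]
        exact h1
  rw [this, Set.ncard_image_of_injective _ (act_injective d)]

theorem ncard_torus [Fintype F] (m : ℕ) :
    {P : Submodule F (Fin (m + 1) → F) | ∃ x : Fin (m + 1) → F, (∀ i, x i ≠ 0) ∧
      P = pt x}.ncard = (Fintype.card F - 1) ^ m := by
  classical
  set Φ : (Fin m → Fˣ) → Submodule F (Fin (m + 1) → F) :=
    fun y => pt (Fin.cons 1 fun i => (y i : F)) with hΦ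
  have hinj : Function.Injective Φ := by
    intro y z h
    obtain ⟨c, hc, h⟩ := (pt_eq_iff _ _).1 h
    have h0 := congrFun h 0
    simp only [Pi.smul_apply, smul_eq_mul, Fin.cons_zero, mul_one] at h0
    ext i
    have hi := congrFun h i.succ
    simp only [Pi.smul_apply, smul_eq_mul, Fin.cons_succ] at hi
    rw [hi, ← h0, one_mul]
  have hr : {P : Submodule F (Fin (m + 1) → F) | ∃ x : Fin (m + 1) → F, (∀ i, x i ≠ 0) ∧
      P = pt x} = Set.range Φ := by
    ext P
    constructor
    · rintro ⟨x, hx, rfl⟩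
      refine ⟨fun i => Units.mk0 ((x 0)⁻¹ * x i.succ)
        (mul_ne_zero (inv_ne_zero (hx 0)) (hx _)), ?_⟩
      rw [hΦ]
      simp only [Units.val_mk0]
      rw [pt_eq_iff]
      refine ⟨x 0, hx 0, ?_⟩
      ext i
      refine Fin.cases ?_ (fun i => ?_) i
      · simp
      · simp only [Pi.smul_apply, smul_eq_mul, Fin.cons_succ]
        rw [← mul_assoc, mul_inv_cancel₀ (hx 0), one_mul]
    · rintro ⟨y, rfl⟩
      refine ⟨_, ?_, rfl⟩
      intro i
      refine Fin.cases ?_ (fun i => ?_) i
      · simp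
      · simp
  rw [hr, Set.ncard_range_of_injective hinj, Nat.card_eq_fintype_card, Fintype.card_fun,
    Fintype.card_fin, Fintype.card_units]

theorem ncard_of_base [Fintype F] (m : ℕ) {A : Set (Submodule F (Fin (m + 2) → F))}
    (h : IsArc (m + 2) A) : (curvesThrough A).ncard * (Fintype.card F + 1 - (m + 2)) =
      (Fintype.card F - 1) ^ (m + 1) * (frameCurves F (m + 2)).ncard := by
  classical
  have hk : 2 ≤ m + 2 := by omega
  obtain ⟨g, hg⟩ := exists_basis_arc hk h le_rfl
  rw [← ncard_act g]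
  have hT : baseSet F (m + 2) = act g A := by
    refine Set.eq_of_subset_of_ncard_le ?_ ?_ (Set.toFinite _)
    · rintro P ⟨j, rfl⟩
      exact hg j
    · rw [(act_isArc g h).2.1, ncard_baseSet]
  rw [← hT]
  set S : Finset (Set (Submodule F (Fin (m + 2) → F))) :=
    (Set.toFinite (curvesThrough (baseSet F (m + 2)))).toFinset with hS
  set Q : Finset (Submodule F (Fin (m + 2) → F)) :=
    (Set.toFinite {P : Submodule F (Fin (m + 2) → F) | ∃ x : Fin (m + 2) → F,
      (∀ i, x i ≠ 0) ∧ P = pt x}).toFinset with hQ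
  have hSm : ∀ C, C ∈ S ↔ IsNRC C ∧ ∀ j : Fin (m + 2), pt (Pi.single j 1) ∈ C := by
    intro C
    rw [hS, Set.Finite.mem_toFinset]
    constructor
    · rintro ⟨hC, hA⟩
      exact ⟨hC, fun j => hA ⟨j, rfl⟩⟩
    · rintro ⟨hC, he⟩
      refine ⟨hC, ?_⟩
      rintro P ⟨j, rfl⟩
      exact he j
  have hQm : ∀ P, P ∈ Q ↔ ∃ x : Fin (m + 2) → F, (∀ i, x i ≠ 0) ∧ P = pt x := by
    intro P
    rw [hQ, Set.Finite.mem_toFinset]
    rfl
  have hSc : (curvesThrough (baseSet F (m + 2))).ncard = S.card := by
    rw [hS, Set.ncard_eq_toFinset_card _ (Set.toFinite _)]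
  have hQc : Q.card = (Fintype.card F - 1) ^ (m + 1) := by
    rw [← ncard_torus (F := F) (m + 1), hQ, Set.ncard_eq_toFinset_card _ (Set.toFinite _)]
  rw [hSc, ← hQc]
  refine Finset.card_mul_eq_card_mul
    (fun (C : Set (Submodule F (Fin (m + 2) → F))) (P : Submodule F (Fin (m + 2) → F)) => P ∈ C)
    ?_ ?_
  · intro C hC
    rw [hSm] at hC
    rw [← ncard_points hk C hC.1 hC.2, ← Set.ncard_coe_finset]
    congr 1
    ext P
    rw [mem_coe, Finset.mem_bipartiteAbove, hQm]
    rfl
  · intro P hP
    rw [hQm] at hP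
    obtain ⟨x, hx, rfl⟩ := hP
    rw [← ncard_star x hx, ← Set.ncard_coe_finset]
    congr 1
    ext C
    rw [mem_coe, Finset.mem_bipartiteBelow, hSm]
    rfl

/-- an arc with at least `k + 2` points in normal position -/
theorem large_arc [Finite F] (hk : 2 ≤ k) {n : ℕ} {A : Set (Submodule F (Fin k → F))}
    (h : IsArc n A) (hn : k + 2 ≤ n) :
    ∃ (g : (Fin k → F) ≃ₗ[F] (Fin k → F)) (x : Fin k → F), (∀ i, x i ≠ 0) ∧
      Function.Injective x ∧ (∀ j : Fin k, pt x ≠ pt (Pi.single j 1)) ∧
      pt x ≠ pt (fun _ => 1) ∧ (∀ j : Fin k, pt (Pi.single j 1) ∈ act g A) ∧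
      pt (fun _ => 1) ∈ act g A ∧ pt x ∈ act g A := by
  classical
  obtain ⟨g, hg, hg1⟩ := exists_frame hk h (by omega)
  have hA' := act_isArc g h
  have : ∃ P ∈ act g A, (∀ j : Fin k, P ≠ pt (Pi.single j 1)) ∧ P ≠ pt (fun _ => 1) := by
    by_contra hcon
    push Not at hcon
    have hsub : act g A ⊆ insert (pt (fun _ => 1)) (baseSet F k) := by
      intro P hP
      by_cases hj : ∀ j : Fin k, P ≠ pt (Pi.single j 1)
      · exact Or.inl (hcon P hP hj)
      · push Not at hj
        obtain ⟨j, hj⟩ := hj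
        exact Or.inr ⟨j, hj.symm⟩
    have h1 := Set.ncard_le_ncard hsub (Set.toFinite _)
    rw [ncard_insert_baseSet _ fun j h => pt_single_ne_one hk j h.symm, hA'.2.1] at h1
    omega
  obtain ⟨P, hP, hPj, hP1⟩ := this
  obtain ⟨x, rfl⟩ := exists_vec P (hA'.1 P hP)
  exact ⟨g, x, coord_ne_zero hk hA' hg x hP hPj, coord_distinct hk hA' hg hg1 x hP hPj hP1,
    hPj, hP1, hg, hg1, hP⟩

theorem ncard_of_large [Finite F] (hk : 2 ≤ k) {n : ℕ} {A : Set (Submodule F (Fin k → F))}
    (h : IsArc n A) (hn : k + 2 ≤ n) (hne : (curvesThrough A).Nonempty) :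
    (curvesThrough A).ncard = 1 := by
  obtain ⟨g, x, hx, -, -, hx1, hg, hg1, hgx⟩ := large_arc hk h hn
  rw [← ncard_act g]
  have hne' : (curvesThrough (act g A)).Nonempty := by
    rw [curvesThrough_act]
    exact hne.image _
  obtain ⟨C, hC⟩ := hne'
  rw [Set.ncard_eq_one]
  refine ⟨C, ?_⟩
  ext C'
  rw [Set.mem_singleton_iff]
  constructor
  · intro hC'
    obtain ⟨a, -, rfl⟩ := exists_curve hk C hC.1 (hC.2 hg1) fun j => hC.2 (hg j)
    obtain ⟨a', -, rfl⟩ := exists_curve hk C' hC'.1 (hC'.2 hg1) fun j => hC'.2 (hg j)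
    exact curve_unique hk a' a x hx hx1 (hC'.2 hgx) (hC.2 hgx)
  · rintro rfl
    exact hC

theorem nonempty_of_two [Finite F] (hk : 2 ≤ k) {A : Set (Submodule F (Fin k → F))}
    (h : IsArc (k + 2) A) : (curvesThrough A).Nonempty := by
  obtain ⟨g, x, hx, hxi, hxj, hx1, hg, hg1, hgx⟩ := large_arc hk h le_rfl
  have hT : insert (pt x) (insert (pt (fun _ => 1)) (baseSet F k)) = act g A := by
    refine Set.eq_of_subset_of_ncard_le ?_ ?_ (Set.toFinite _)
    · rintro P (rfl | rfl | ⟨j, rfl⟩)
      · exact hgx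
      · exact hg1
      · exact hg j
    · rw [(act_isArc g h).2.1, Set.ncard_insert_of_notMem,
        ncard_insert_baseSet _ fun j h => pt_single_ne_one hk j h.symm]
      rintro (h | ⟨j, h⟩)
      · exact hx1 h
      · exact hxj j h.symm
  have hinv : Function.Injective fun i => (x i)⁻¹ := fun i j hij => hxi (inv_injective hij)
  have hmem : curve (fun i => (x i)⁻¹) ∈ curvesThrough (act g A) := by
    refine ⟨curve_isNRC hk _ hinv, ?_⟩
    rw [← hT]
    rintro P (rfl | rfl | ⟨j, rfl⟩)
    · exact mem_curve_inv x hx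
    · exact ⟨none, rfl⟩
    · exact single_mem_curve _ hinv j
  have : (curvesThrough (act g A)).Nonempty := ⟨_, hmem⟩
  rw [curvesThrough_act] at this
  exact this.of_image

/-- The answer to Q2: the number of the normal rational curves of `PG(k - 1, q)` that contain a given
`n`-arc. -/
def number (q k n : ℕ) : ℕ :=
  if n = k then if k = 2 then 1 else (q - 1) ^ (k - 1) * ∏ i ∈ Finset.Ico 2 (k - 1), (q - i)
  else if n = k + 1 then ∏ i ∈ Finset.Ico 2 k, (q - i)
  else 1

/-- **Main theorem.** Let `F` be a field with `q` elements and `2 ≤ k < q`, `k ≤ n`. Every `n`-arc with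
`n ≤ k + 2` is contained in a normal rational curve, and every `n`-arc that is contained in a normal
rational curve is contained in exactly `number q k n` of them. -/
theorem result (F : Type) [Field F] [Fintype F] (q k : ℕ) (hF : Fintype.card F = q)
    (hk : 2 ≤ k) (hq : k < q) (n : ℕ) (hn : k ≤ n) (A : Set (Submodule F (Fin k → F)))
    (hA : IsArc n A) :
    (n ≤ k + 2 → ∃ C, IsNRC C ∧ A ⊆ C) ∧
      ((∃ C, IsNRC C ∧ A ⊆ C) → {C | IsNRC C ∧ A ⊆ C}.ncard = number q k n) := by
  classical
  obtain ⟨m, rfl⟩ : ∃ m, k = m + 2 := ⟨k - 2, by omega⟩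
  have hfc : (frameCurves F (m + 2)).ncard = ∏ i ∈ Finset.Ico 2 (m + 2), (q - i) := by
    rw [ncard_frameCurves m (by rw [hF]; exact hq), hF, Nat.descFactorial_eq_prod_range,
      Finset.prod_Ico_eq_prod_range]
    refine Finset.prod_congr (by simp) fun i _ => ?_
    omega
  have hpos : ∏ i ∈ Finset.Ico 2 (m + 2), (q - i) ≠ 0 := by
    refine Finset.prod_ne_zero_iff.2 fun i hi => ?_
    have := (Finset.mem_Ico.1 hi).2
    omega
  have hcases : n = m + 2 ∨ n = m + 2 + 1 ∨ m + 2 + 2 ≤ n := by omega
  rcases hcases with rfl | rfl | hlarge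
  · have h1 := ncard_of_base m hA
    rw [hfc, hF] at h1
    have h2 : (curvesThrough A).ncard = number q (m + 2) (m + 2) := by
      unfold number
      rw [if_pos rfl]
      by_cases hm : m + 2 = 2
      · rw [if_pos hm]
        have hm0 : m = 0 := by omega
        subst hm0
        have h3 : q + 1 - (0 + 2) = q - 1 := by omega
        rw [h3] at h1
        simp only [zero_add, pow_one, Finset.Ico_self, Finset.prod_empty, mul_one] at h1
        have h4 : 0 < q - 1 := by omega
        exact Nat.eq_of_mul_eq_mul_right h4 (by rw [one_mul]; exact h1)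
      · rw [if_neg hm]
        have h3 : q + 1 - (m + 2) = q - (m + 1) := by omega
        have h5 : (m + 2) - 1 = m + 1 := rfl
        rw [h3, Finset.prod_Ico_succ_top (by omega : 2 ≤ m + 1), ← mul_assoc] at h1
        have h4 : 0 < q - (m + 1) := by omega
        rw [h5]
        exact Nat.eq_of_mul_eq_mul_right h4 h1
    refine ⟨fun _ => ?_, fun _ => h2⟩
    have h6 : (curvesThrough A).ncard ≠ 0 := by
      intro h0
      rw [h0, zero_mul] at h1
      have h4 : 0 < (q - 1) ^ (m + 1) := Nat.pow_pos (by omega)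
      exact (mul_ne_zero h4.ne' hpos) h1.symm
    exact Set.nonempty_of_ncard_ne_zero h6
  · have h1 := ncard_of_succ (by omega) hA
    rw [hfc] at h1
    have h6 : (curvesThrough A).ncard ≠ 0 := by rw [h1]; exact hpos
    refine ⟨fun _ => ?_, fun _ => ?_⟩
    · exact Set.nonempty_of_ncard_ne_zero h6
    · unfold number
      rw [if_neg (by omega), if_pos rfl]
      exact h1
  · refine ⟨fun hle => ?_, fun hne => ?_⟩
    · have hn' : n = m + 2 + 2 := by omega
      subst hn'
      exact nonempty_of_two (by omega) hA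
    · unfold number
      rw [if_neg (by omega), if_neg (by omega)]
      exact ncard_of_large (by omega) hA hlarge hne

end Pool.Agent.Results.MP_8a9ebc_co.CurvesThroughArc
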